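import Pool.Agent.H94.LH.Stmts
import Pool.Agent.H85.STAR.Zero

/-!
# LH, module PZR: the Thue-Siegel step at the real place
-/

set_option autoImplicit false

namespace Pool.LH

open Finset Pool.Agent.H98.ABCR Pool.SHA

namespace PZRP

/-- The Taylor remainder of `s ^ e` at `1`. -/
noncomputable def Rm (κ e : ℕ) (s : ℝ) : ℝ :=
  s ^ e - ∑ j ∈ Finset.range κ, (e.choose j : ℝ) * (s - 1) ^ j

theorem rm_step (k e : ℕ) (s : ℝ) :
    Rm (k + 1) (e + 1) s = (s - 1) * Rm k e s + Rm (k + 1) e s := by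
  unfold Rm
  rw [Finset.sum_range_succ', Finset.sum_range_succ' (fun j => (e.choose j : ℝ) * (s - 1) ^ j) k]
  have h1 : ∑ j ∈ Finset.range k, ((e + 1).choose (j + 1) : ℝ) * (s - 1) ^ (j + 1) =
      (s - 1) * ∑ j ∈ Finset.range k, (e.choose j : ℝ) * (s - 1) ^ j +
        ∑ j ∈ Finset.range k, (e.choose (j + 1) : ℝ) * (s - 1) ^ (j + 1) := by
    rw [Finset.mul_sum, ← Finset.sum_add_distrib]
    apply Finset.sum_congr rfl
    intro j _
    rw [Nat.choose_succ_succ]
    push_cast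
    ring
  rw [h1]
  simp only [Nat.choose_zero_right, pow_zero]
  ring

theorem rm_bound (s : ℝ) (hs : 0 ≤ s) : ∀ e κ : ℕ,
    |Rm κ e s| ≤ (e.choose κ : ℝ) * |s - 1| ^ κ * (max 1 s) ^ e := by
  have hm1 : (1 : ℝ) ≤ max 1 s := le_max_left _ _
  have hms : s ≤ max 1 s := le_max_right _ _
  intro e
  induction e with
  | zero =>
    intro κ
    cases κ with
    | zero => simp [Rm]
    | succ k =>
      have h1 : Rm (k + 1) 0 s = 0 := by
        unfold Rm
        rw [Finset.sum_range_succ']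
        have h2 : ∑ j ∈ Finset.range k, ((0 : ℕ).choose (j + 1) : ℝ) * (s - 1) ^ (j + 1) = 0 := by
          apply Finset.sum_eq_zero
          intro j _
          rw [Nat.choose_zero_succ]
          simp
        rw [h2]
        simp
      rw [h1, abs_zero]
      positivity
  | succ e ih =>
    intro κ
    cases κ with
    | zero =>
      unfold Rm
      simp only [Finset.range_zero, Finset.sum_empty, sub_zero, Nat.choose_zero_right, pow_zero,
        Nat.cast_one, one_mul]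
      rw [abs_of_nonneg (by positivity)]
      exact pow_le_pow_left₀ hs hms _
    | succ k =>
      rw [rm_step]
      refine (abs_add_le _ _).trans ?_
      rw [abs_mul]
      have h1 := ih k
      have h2 := ih (k + 1)
      have h3 : |s - 1| * |Rm k e s| ≤
          |s - 1| * ((e.choose k : ℝ) * |s - 1| ^ k * (max 1 s) ^ e) :=
        mul_le_mul_of_nonneg_left h1 (abs_nonneg _)
      have h4 : ((e + 1).choose (k + 1) : ℝ) = (e.choose k : ℝ) + (e.choose (k + 1) : ℝ) := by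
        rw [Nat.choose_succ_succ]
        push_cast
        ring
      have h5 : (max 1 s) ^ e ≤ (max 1 s) ^ (e + 1) := pow_le_pow_right₀ hm1 (Nat.le_succ e)
      have h6 : ((e.choose k : ℝ) + (e.choose (k + 1) : ℝ)) * |s - 1| ^ (k + 1) * (max 1 s) ^ e ≤
          ((e.choose k : ℝ) + (e.choose (k + 1) : ℝ)) * |s - 1| ^ (k + 1) *
            (max 1 s) ^ (e + 1) := mul_le_mul_of_nonneg_left h5 (by positivity)
      rw [h4]
      refine le_trans (add_le_add h3 h2) (le_trans (le_of_eq ?_) h6)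
      ring

/-- A sparse polynomial with a zero of order `K` at `1`, after `i` derivations. -/
theorem q_bound {ι : Type} [Fintype ι] (b : ι → ℤ) (e : ι → ℕ) (K i : ℕ) (s : ℝ) (hs : 0 ≤ s)
    (h : ∀ j < K, ∑ w, b w * (Nat.choose (e w) j : ℤ) = 0) :
    |∑ w, (b w : ℝ) * (Nat.choose (e w) i : ℝ) * s ^ (e w)| ≤
      |s - 1| ^ (K - i) * ∑ w, |(b w : ℝ)| * (Nat.choose (e w) i : ℝ) *
        (Nat.choose (e w) (K - i) : ℝ) * (max 1 s) ^ (e w) := by
  set κ := K - i with hκ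
  have hm1 : (1 : ℝ) ≤ max 1 s := le_max_left _ _
  have hms : s ≤ max 1 s := le_max_right _ _
  -- expansion of one term
  have h1 : ∀ w, (b w : ℝ) * (Nat.choose (e w) i : ℝ) * s ^ (e w) =
      (b w : ℝ) * (Nat.choose (e w) i : ℝ) * s ^ i * Rm κ (e w - i) s +
        ∑ j ∈ Finset.range κ, (s ^ i * (Nat.choose (i + j) i : ℝ) * (s - 1) ^ j) *
          ((b w : ℝ) * (Nat.choose (e w) (i + j) : ℝ)) := by
    intro w
    rcases le_or_gt i (e w) with hi | hi
    · have h2 : s ^ (e w) = s ^ i * s ^ (e w - i) := by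
        rw [← pow_add]
        congr 1
        omega
      have h3 : s ^ (e w - i) = Rm κ (e w - i) s +
          ∑ j ∈ Finset.range κ, ((e w - i).choose j : ℝ) * (s - 1) ^ j := by
        unfold Rm
        ring
      rw [h2, h3]
      have h4 : ∑ j ∈ Finset.range κ, (s ^ i * (Nat.choose (i + j) i : ℝ) * (s - 1) ^ j) *
          ((b w : ℝ) * (Nat.choose (e w) (i + j) : ℝ)) =
          (b w : ℝ) * (Nat.choose (e w) i : ℝ) * s ^ i *
            ∑ j ∈ Finset.range κ, ((e w - i).choose j : ℝ) * (s - 1) ^ j := by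
        rw [Finset.mul_sum]
        apply Finset.sum_congr rfl
        intro j _
        have h5 : (e w).choose (i + j) * (i + j).choose i =
            (e w).choose i * (e w - i).choose ((i + j) - i) := Nat.choose_mul (by omega)
        rw [Nat.add_sub_cancel_left] at h5
        have h6 : ((e w).choose (i + j) : ℝ) * ((i + j).choose i : ℝ) =
            ((e w).choose i : ℝ) * ((e w - i).choose j : ℝ) := by exact_mod_cast h5
        linear_combination ((b w : ℝ) * s ^ i * (s - 1) ^ j) * h6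
      rw [h4]
      ring
    · have h2 : (Nat.choose (e w) i : ℝ) = 0 := by
        rw [Nat.choose_eq_zero_of_lt hi]
        simp
      have h3 : ∑ j ∈ Finset.range κ, (s ^ i * (Nat.choose (i + j) i : ℝ) * (s - 1) ^ j) *
          ((b w : ℝ) * (Nat.choose (e w) (i + j) : ℝ)) = 0 := by
        apply Finset.sum_eq_zero
        intro j _
        rw [Nat.choose_eq_zero_of_lt (show e w < i + j by omega)]
        simp
      rw [h2, h3]
      ring
  have h2 : ∑ w, (b w : ℝ) * (Nat.choose (e w) i : ℝ) * s ^ (e w) =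
      ∑ w, (b w : ℝ) * (Nat.choose (e w) i : ℝ) * s ^ i * Rm κ (e w - i) s := by
    rw [Finset.sum_congr rfl fun w _ => h1 w, Finset.sum_add_distrib]
    have h3 : ∑ w, ∑ j ∈ Finset.range κ, (s ^ i * (Nat.choose (i + j) i : ℝ) * (s - 1) ^ j) *
          ((b w : ℝ) * (Nat.choose (e w) (i + j) : ℝ)) = 0 := by
      rw [Finset.sum_comm]
      apply Finset.sum_eq_zero
      intro j hj
      rw [Finset.mem_range] at hj
      rw [← Finset.mul_sum]
      have h4 := h (i + j) (by omega)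
      have h5 : ∑ w, (b w : ℝ) * (Nat.choose (e w) (i + j) : ℝ) = 0 := by
        have h6 := congrArg (fun k : ℤ => (k : ℝ)) h4
        push_cast at h6
        exact h6
      rw [h5, mul_zero]
    rw [h3, add_zero]
  rw [h2, Finset.mul_sum]
  refine (Finset.abs_sum_le_sum_abs _ _).trans (Finset.sum_le_sum fun w _ => ?_)
  rcases le_or_gt i (e w) with hi | hi
  · have h3 := rm_bound s hs (e w - i) κ
    rw [abs_mul, abs_mul, abs_mul, Nat.abs_cast, abs_of_nonneg (pow_nonneg hs i)]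
    have h4 : ((e w - i).choose κ : ℝ) ≤ ((e w).choose κ : ℝ) := by
      exact_mod_cast Nat.choose_le_choose κ (Nat.sub_le _ _)
    have h5 : s ^ i * (max 1 s) ^ (e w - i) ≤ (max 1 s) ^ (e w) := by
      have h6 : (max 1 s) ^ (e w) = (max 1 s) ^ i * (max 1 s) ^ (e w - i) := by
        rw [← pow_add]
        congr 1
        omega
      rw [h6]
      exact mul_le_mul_of_nonneg_right (pow_le_pow_left₀ hs hms _) (by positivity)
    calc |(b w : ℝ)| * ((e w).choose i : ℝ) * s ^ i * |Rm κ (e w - i) s|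
        ≤ |(b w : ℝ)| * ((e w).choose i : ℝ) * s ^ i *
          (((e w - i).choose κ : ℝ) * |s - 1| ^ κ * (max 1 s) ^ (e w - i)) :=
          mul_le_mul_of_nonneg_left h3 (by positivity)
      _ = (|(b w : ℝ)| * ((e w).choose i : ℝ) * |s - 1| ^ κ) * (((e w - i).choose κ : ℝ) *
          (s ^ i * (max 1 s) ^ (e w - i))) := by ring
      _ ≤ (|(b w : ℝ)| * ((e w).choose i : ℝ) * |s - 1| ^ κ) * (((e w).choose κ : ℝ) *
          (max 1 s) ^ (e w)) := by
          apply mul_le_mul_of_nonneg_left _ (by positivity)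
          exact mul_le_mul h4 h5 (by positivity) (by positivity)
      _ = _ := by ring
  · have h3 : (Nat.choose (e w) i : ℝ) = 0 := by
      rw [Nat.choose_eq_zero_of_lt hi]
      simp
    rw [h3]
    simp

/-- Some value of the auxiliary polynomial does not vanish. -/
theorem nonzero (g z M N K I p q a c : ℕ) (b : Fin M × Fin (N + 1) → ℤ)
    (hg : 0 < g) (hzg : Nat.Coprime z g) (hMg : M ≤ g) (hb0 : b ≠ 0)
    (hKI : M * N + 2 * M ≤ K + I) (hp : 0 < p) (hq : 0 < q) (hpq : p ≠ q) (ha : 0 < a)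
    (hc : 0 < c)
    (hsys : ∀ i < K, ∑ w : Fin M × Fin (N + 1),
      b w * (Nat.choose (g * (w.2 : ℕ) + z * (w.1 : ℕ)) i : ℤ) = 0) :
    ∃ i < I, (∑ w : Fin M × Fin (N + 1),
        b w * (Nat.choose (g * (w.2 : ℕ) + z * (w.1 : ℕ)) i : ℤ) *
          ((p : ℤ) ^ (w.2 : ℕ) * (q : ℤ) ^ (N - (w.2 : ℕ)) *
            ((a : ℤ) ^ (w.1 : ℕ) * (c : ℤ) ^ (M - 1 - (w.1 : ℕ))))) ≠ 0 := by
  have hqQ : (q : ℚ) ≠ 0 := by exact_mod_cast hq.ne'
  have hcQ : (c : ℚ) ≠ 0 := by exact_mod_cast hc.ne'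
  by_contra hcon
  push Not at hcon
  have := H85STAR.zero_est g z M N K I b ((p : ℚ) / q) ((a : ℚ) / c) hg hzg hMg hb0
    (div_ne_zero (by exact_mod_cast hp.ne') hqQ)
    (by
      intro h
      rw [div_eq_one_iff_eq hqQ] at h
      exact hpq (by exact_mod_cast h))
    (div_ne_zero (by exact_mod_cast ha.ne') hcQ) hsys
    (by
      intro i hi
      have h0 := hcon i hi
      have h1 : (((∑ w : Fin M × Fin (N + 1),
        b w * (Nat.choose (g * (w.2 : ℕ) + z * (w.1 : ℕ)) i : ℤ) *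
          ((p : ℤ) ^ (w.2 : ℕ) * (q : ℤ) ^ (N - (w.2 : ℕ)) *
            ((a : ℤ) ^ (w.1 : ℕ) * (c : ℤ) ^ (M - 1 - (w.1 : ℕ)))) : ℤ)) : ℚ) = 0 := by
        rw [h0]
        norm_num
      have h2 : (((∑ w : Fin M × Fin (N + 1),
        b w * (Nat.choose (g * (w.2 : ℕ) + z * (w.1 : ℕ)) i : ℤ) *
          ((p : ℤ) ^ (w.2 : ℕ) * (q : ℤ) ^ (N - (w.2 : ℕ)) *
            ((a : ℤ) ^ (w.1 : ℕ) * (c : ℤ) ^ (M - 1 - (w.1 : ℕ)))) : ℤ)) : ℚ) =
          (q : ℚ) ^ N * (c : ℚ) ^ (M - 1) *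
        ∑ w : Fin M × Fin (N + 1),
          (b w : ℚ) * (Nat.choose (g * (w.2 : ℕ) + z * (w.1 : ℕ)) i : ℚ) *
            ((p : ℚ) / q) ^ (w.2 : ℕ) * ((a : ℚ) / c) ^ (w.1 : ℕ) := by
        push_cast
        rw [Finset.mul_sum]
        apply Finset.sum_congr rfl
        intro w _
        have hw2 : (w.2 : ℕ) ≤ N := Nat.lt_succ_iff.mp w.2.2
        have hw1' : (w.1 : ℕ) ≤ M - 1 := by have := w.1.2; omega
        have f1 : (q : ℚ) ^ N = (q : ℚ) ^ (w.2 : ℕ) * (q : ℚ) ^ (N - (w.2 : ℕ)) := by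
          rw [← pow_add]; congr 1; omega
        have f2 : (c : ℚ) ^ (M - 1) = (c : ℚ) ^ (w.1 : ℕ) * (c : ℚ) ^ (M - 1 - (w.1 : ℕ)) := by
          rw [← pow_add]; congr 1; omega
        rw [f1, f2, div_pow, div_pow]
        have g1 : (q : ℚ) ^ (w.2 : ℕ) ≠ 0 := pow_ne_zero _ hqQ
        have g2 : (c : ℚ) ^ (w.1 : ℕ) ≠ 0 := pow_ne_zero _ hcQ
        field_simp
      rw [h2] at h1
      exact (mul_eq_zero.mp h1).resolve_left
        (mul_ne_zero (pow_ne_zero _ hqQ) (pow_ne_zero _ hcQ)))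
  omega

/-- The case `Nt = Dt`. -/
theorem case_eq (g : ℕ) (B V : ℝ) (W1 W2 : ℕ) (hg : 1 ≤ g) (h1 : 0 < W1) (h2 : 0 < W2)
    (hne : W1 ≠ W2) (hr : |(g : ℝ) * (Real.log W1 - Real.log W2)| ≤ Real.exp (-B))
    (hW1 : (W1 : ℝ) ≤ Real.exp V) (hW2 : (W2 : ℝ) ≤ Real.exp V) : B ≤ V := by
  have key : ∀ a c : ℕ, 0 < a → a < c → (c : ℝ) ≤ Real.exp V →
      Real.exp (-V) ≤ |Real.log c - Real.log a| := by
    intro a c ha hac hc
    have ha' : (0 : ℝ) < a := by exact_mod_cast ha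
    have hc' : (0 : ℝ) < c := by exact_mod_cast ha.trans hac
    have h3 := Real.one_sub_inv_le_log_of_pos (div_pos hc' ha')
    rw [Real.log_div hc'.ne' ha'.ne', inv_div] at h3
    have h4 : (a : ℝ) + 1 ≤ c := by exact_mod_cast hac
    have h5 : 1 / (c : ℝ) ≤ 1 - (a : ℝ) / c := by
      rw [le_sub_iff_add_le, ← add_div, div_le_one hc']
      linarith
    have h6 : Real.exp (-V) ≤ 1 / (c : ℝ) := by
      rw [Real.exp_neg, inv_eq_one_div]
      exact one_div_le_one_div_of_le hc' hc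
    exact (h6.trans (h5.trans h3)).trans (le_abs_self _)
  have h3 : Real.exp (-V) ≤ |Real.log W1 - Real.log W2| := by
    rcases lt_or_gt_of_ne hne with h | h
    · rw [abs_sub_comm]
      exact key W1 W2 h1 h hW2
    · exact key W2 W1 h2 h hW1
  rw [abs_mul, Nat.abs_cast] at hr
  have hg' : (1 : ℝ) ≤ g := by exact_mod_cast hg
  have h4 : |Real.log W1 - Real.log W2| ≤ (g : ℝ) * |Real.log W1 - Real.log W2| := by
    nlinarith [abs_nonneg (Real.log (W1 : ℝ) - Real.log W2)]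
  have h5 : Real.exp (-V) ≤ Real.exp (-B) := h3.trans (h4.trans hr)
  have h6 := Real.exp_le_exp.1 h5
  linarith

/-- The case `Nt ≠ Dt`: the estimate with the constants of Siegel's lemma. -/
theorem case_ne (g M n z : ℕ) (b B : ℝ) (Nt Dt W1 W2 : ℕ) (U V : ℝ)
    (hg : g.Prime) (hz0 : 0 < z) (hzg : z < g) (hM : 1 ≤ M) (hMg : M ≤ g) (hn : 2 ≤ n)
    (hA : ApR g z b B Nt Dt W1 W2) (hne : Nt ≠ Dt) (hb : 1 ≤ b) (hB1 : 1 ≤ B)
    (hB : B ≤ b * (M * n)) (hU : 0 ≤ U) (hV : 0 ≤ V)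
    (hNU : (Nt : ℝ) ≤ Real.exp U) (hDU : (Dt : ℝ) ≤ Real.exp U) (hW1 : (W1 : ℝ) ≤ Real.exp V) :
    Real.exp B ≤ 3 * ((M * ((4 * n : ℕ) + 1) : ℝ) *
        ((g : ℝ) ^ (3 * (M * n)) * 3 ^ (4 * n + M))) ^ 4 *
      ((g : ℝ) ^ (3 * (M * n)) * 3 ^ (4 * n + M)) * Real.exp (4 * n * U + M * V + M) := by
  have hg0 : 0 < g := hg.pos
  have hg2 : (2 : ℝ) ≤ g := by exact_mod_cast hg.two_le
  have hMR : (1 : ℝ) ≤ M := by exact_mod_cast hM
  have hMgR : (M : ℝ) ≤ g := by exact_mod_cast hMg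
  have hzgR : (z : ℝ) ≤ g := by exact_mod_cast hzg.le
  have hMn : 2 * M ≤ M * n := by nlinarith
  set N : ℕ := 4 * n with hN
  set K : ℕ := 3 * (M * n) with hK
  have hMN : M * N = 4 * (M * n) := by rw [hN]; ring
  have hcop : Nat.Coprime z g := ((hg.coprime_iff_not_dvd).2
    (fun h => absurd (Nat.le_of_dvd hz0 h) (by omega))).symm
  obtain ⟨β, hβ0, hsys, hβ⟩ := H85STAR.siegel_step g z M N K hg0 hzg.le hM (by omega)
    (by rw [hMN]; omega)
  obtain ⟨i, hi, hξ⟩ := nonzero g z M N K (M * n + 2 * M) Nt Dt W2 W1 β hg0 hcop hMg hβ0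
    (by rw [hMN]; omega) hA.N0 hA.D0 hne hA.W20 hA.W10 hsys
  set ξ : ℤ := ∑ w : Fin M × Fin (N + 1),
        β w * (Nat.choose (g * (w.2 : ℕ) + z * (w.1 : ℕ)) i : ℤ) *
          ((Nt : ℤ) ^ (w.2 : ℕ) * (Dt : ℤ) ^ (N - (w.2 : ℕ)) *
            ((W2 : ℤ) ^ (w.1 : ℕ) * (W1 : ℤ) ^ (M - 1 - (w.1 : ℕ)))) with hξdef
  -- real quantities
  have pN : (0 : ℝ) < Nt := by exact_mod_cast hA.N0
  have pD : (0 : ℝ) < Dt := by exact_mod_cast hA.D0
  have pW1 : (0 : ℝ) < W1 := by exact_mod_cast hA.W10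
  have pW2 : (0 : ℝ) < W2 := by exact_mod_cast hA.W20
  set lt : ℝ := Real.log Nt - Real.log Dt with hlt
  set η : ℝ := Real.log W2 - Real.log W1 - z * lt / g with hη
  set s0 : ℝ := Real.exp (lt / g) with hs0
  have hs0pos : 0 < s0 := Real.exp_pos _
  have hgR : (0 : ℝ) < g := by linarith
  have hlt1 : |lt| ≤ Real.exp (-b) := hA.cN
  have heb : Real.exp (-b) ≤ 1 := by
    rw [Real.exp_le_one_iff]
    linarith
  have heB : Real.exp (-B) ≤ 1 := by
    rw [Real.exp_le_one_iff]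
    linarith
  have hη1 : |η| * g ≤ Real.exp (-B) := by
    have h1 : |η| * g = |η * g| := by rw [abs_mul, Nat.abs_cast]
    have h2 : η * g = -(z * (Real.log Nt - Real.log Dt) +
        g * (Real.log W1 - Real.log W2)) := by
      rw [hη, hlt]
      field_simp
      ring
    rw [h1, h2, abs_neg]
    exact hA.rel
  have hs1 : |s0 - 1| ≤ Real.exp (-b) := by
    have h1 : |lt / g| ≤ Real.exp (-b) / 2 := by
      rw [abs_div, Nat.abs_cast, div_le_div_iff₀ hgR (by norm_num)]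
      nlinarith [Real.exp_pos (-b), abs_nonneg lt]
    have h2 := Real.abs_exp_sub_one_le (x := lt / g) (by linarith)
    linarith
  -- the sum in terms of `s0`
  have hterm : ∀ w : Fin M × Fin (N + 1),
      (((Nt : ℝ) ^ (w.2 : ℕ) * (Dt : ℝ) ^ (N - (w.2 : ℕ)) *
            ((W2 : ℝ) ^ (w.1 : ℕ) * (W1 : ℝ) ^ (M - 1 - (w.1 : ℕ))))) =
        ((Dt : ℝ) ^ N * (W1 : ℝ) ^ (M - 1)) *
          (s0 ^ (g * (w.2 : ℕ) + z * (w.1 : ℕ)) * Real.exp ((w.1 : ℕ) * η)) := by
    intro w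
    have hw2 : (w.2 : ℕ) ≤ N := Nat.lt_succ_iff.mp w.2.2
    have hw1' : (w.1 : ℕ) ≤ M - 1 := by have := w.1.2; omega
    have f1 : (Dt : ℝ) ^ N = (Dt : ℝ) ^ (w.2 : ℕ) * (Dt : ℝ) ^ (N - (w.2 : ℕ)) := by
      rw [← pow_add]; congr 1; omega
    have f2 : (W1 : ℝ) ^ (M - 1) = (W1 : ℝ) ^ (w.1 : ℕ) * (W1 : ℝ) ^ (M - 1 - (w.1 : ℕ)) := by
      rw [← pow_add]; congr 1; omega
    have f3 : (Nt : ℝ) = Dt * Real.exp lt := by
      rw [hlt, Real.exp_sub, Real.exp_log pN, Real.exp_log pD]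
      field_simp
    have f4 : (W2 : ℝ) = W1 * Real.exp (η + z * lt / g) := by
      have : η + z * lt / g = Real.log W2 - Real.log W1 := by rw [hη]; ring
      rw [this, Real.exp_sub, Real.exp_log pW1, Real.exp_log pW2]
      field_simp
    have f5 : s0 ^ (g * (w.2 : ℕ) + z * (w.1 : ℕ)) * Real.exp ((w.1 : ℕ) * η) =
        Real.exp lt ^ (w.2 : ℕ) * Real.exp (η + z * lt / g) ^ (w.1 : ℕ) := by
      rw [hs0, ← Real.exp_nat_mul, ← Real.exp_nat_mul, ← Real.exp_nat_mul, ← Real.exp_add,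
        ← Real.exp_add]
      congr 1
      push_cast
      field_simp
      ring
    rw [f5, f1, f2, f4, mul_pow]
    rw [show (Nt : ℝ) ^ (w.2 : ℕ) = (Dt : ℝ) ^ (w.2 : ℕ) * Real.exp lt ^ (w.2 : ℕ) by
      rw [f3, mul_pow]]
    ring
  set C : ℝ := (g : ℝ) ^ K * 3 ^ (N + M) with hC
  set D : ℝ := (M * ((N : ℕ) + 1) : ℝ) * C with hD
  have hC0 : 0 < C := by positivity
  have hC1 : 1 ≤ C := by
    have h1 : (1 : ℝ) ≤ (g : ℝ) ^ K := one_le_pow₀ (by linarith)
    have h2 : (1 : ℝ) ≤ (3 : ℝ) ^ (N + M) := one_le_pow₀ (by norm_num)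
    nlinarith
  have hD0 : 0 ≤ D := by positivity
  have hbd : ∀ w : Fin M × Fin (N + 1), |(β w : ℝ)| ≤ D ^ 3 := by
    intro w
    have := hβ w
    push_cast at this
    exact this
  have hch : ∀ (w : Fin M × Fin (N + 1)) (j : ℕ), j ≤ K →
      (Nat.choose (g * (w.2 : ℕ) + z * (w.1 : ℕ)) j : ℝ) ≤ C := by
    intro w j hj
    apply H85STAR.choose_bound g _ j (N + M) K hg0 _ hj
    have hw2 : (w.2 : ℕ) ≤ N := Nat.lt_succ_iff.mp w.2.2
    have h2 : (w.1 : ℕ) ≤ M := w.1.2.le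
    calc g * (w.2 : ℕ) + z * (w.1 : ℕ) ≤ g * N + g * M := by
          apply Nat.add_le_add
          · exact Nat.mul_le_mul_left _ hw2
          · exact Nat.mul_le_mul hzg.le h2
      _ = g * (N + M) := by ring
  -- growth
  have hgrow : ∀ w : Fin M × Fin (N + 1),
      (Dt : ℝ) ^ N * (max 1 s0) ^ (g * (w.2 : ℕ) + z * (w.1 : ℕ)) ≤
        Real.exp (4 * n * U + M) := by
    intro w
    have hw2 : (w.2 : ℕ) ≤ N := Nat.lt_succ_iff.mp w.2.2
    have hw1 : (w.1 : ℕ) ≤ M := w.1.2.le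
    have hw2R : ((w.2 : ℕ) : ℝ) ≤ N := by exact_mod_cast hw2
    have hw1R : ((w.1 : ℕ) : ℝ) ≤ M := by exact_mod_cast hw1
    have hNR : (N : ℝ) = 4 * n := by rw [hN]; push_cast; ring
    rcases le_or_gt s0 1 with h | h
    · rw [max_eq_left h, one_pow, mul_one]
      calc (Dt : ℝ) ^ N ≤ (Real.exp U) ^ N := pow_le_pow_left₀ pD.le hDU _
        _ = Real.exp (N * U) := by rw [← Real.exp_nat_mul]
        _ ≤ Real.exp (4 * n * U + M) := by
          apply Real.exp_le_exp.2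
          rw [hNR]
          linarith
    · rw [max_eq_right h.le]
      have hlt0 : 0 ≤ lt := by
        by_contra hc
        have h1 : lt / g ≤ 0 := div_nonpos_of_nonpos_of_nonneg (by linarith) hgR.le
        have h2 : s0 ≤ 1 := by
          rw [hs0, Real.exp_le_one_iff]
          exact h1
        linarith
      have hltle : lt ≤ 1 := by
        have := le_abs_self lt
        linarith
      have h1 : s0 ^ (g * (w.2 : ℕ) + z * (w.1 : ℕ)) ≤ Real.exp (N * lt + M) := by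
        rw [hs0, ← Real.exp_nat_mul]
        apply Real.exp_le_exp.2
        push_cast
        have h2 : ((g : ℝ) * (w.2 : ℕ) + z * (w.1 : ℕ)) * (lt / g) =
            (w.2 : ℕ) * lt + (z * (w.1 : ℕ)) * lt / g := by
          field_simp
        rw [h2]
        have h3 : ((w.2 : ℕ) : ℝ) * lt ≤ N * lt := mul_le_mul_of_nonneg_right hw2R hlt0
        have h4 : ((z : ℝ) * (w.1 : ℕ)) * lt / g ≤ M := by
          rw [div_le_iff₀ hgR]
          calc ((z : ℝ) * (w.1 : ℕ)) * lt ≤ ((z : ℝ) * (w.1 : ℕ)) * 1 :=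
                mul_le_mul_of_nonneg_left hltle (by positivity)
            _ = (w.1 : ℕ) * (z : ℝ) := by ring
            _ ≤ M * g := mul_le_mul hw1R hzgR (by positivity) (by positivity)
        linarith
      have h5 : (Dt : ℝ) ^ N * Real.exp (N * lt + M) = (Nt : ℝ) ^ N * Real.exp M := by
        have f3 : (Nt : ℝ) = Dt * Real.exp lt := by
          rw [hlt, Real.exp_sub, Real.exp_log pN, Real.exp_log pD]
          field_simp
        rw [f3, mul_pow, Real.exp_add, ← Real.exp_nat_mul]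
        ring
      calc (Dt : ℝ) ^ N * s0 ^ (g * (w.2 : ℕ) + z * (w.1 : ℕ))
          ≤ (Dt : ℝ) ^ N * Real.exp (N * lt + M) := mul_le_mul_of_nonneg_left h1 (by positivity)
        _ = (Nt : ℝ) ^ N * Real.exp M := h5
        _ ≤ (Real.exp U) ^ N * Real.exp M :=
          mul_le_mul_of_nonneg_right (pow_le_pow_left₀ pN.le hNU _) (Real.exp_pos _).le
        _ = Real.exp (4 * n * U + M) := by
          rw [← Real.exp_nat_mul, ← Real.exp_add, hNR]
  -- the decomposition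
  set Q : ℝ := ∑ w : Fin M × Fin (N + 1), (β w : ℝ) *
    (Nat.choose (g * (w.2 : ℕ) + z * (w.1 : ℕ)) i : ℝ) *
      s0 ^ (g * (w.2 : ℕ) + z * (w.1 : ℕ)) with hQ
  set E : ℝ := ∑ w : Fin M × Fin (N + 1), (β w : ℝ) *
    (Nat.choose (g * (w.2 : ℕ) + z * (w.1 : ℕ)) i : ℝ) *
      (s0 ^ (g * (w.2 : ℕ) + z * (w.1 : ℕ)) * (Real.exp ((w.1 : ℕ) * η) - 1)) with hE
  have hξR : (ξ : ℝ) = ((Dt : ℝ) ^ N * (W1 : ℝ) ^ (M - 1)) * (Q + E) := by
    rw [hξdef, hQ, hE, ← Finset.sum_add_distrib, Finset.mul_sum]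
    push_cast
    apply Finset.sum_congr rfl
    intro w _
    rw [hterm w]
    ring
  have hcard : ((Finset.univ : Finset (Fin M × Fin (N + 1))).card : ℝ) = M * ((N : ℕ) + 1) := by
    rw [Finset.card_univ]
    simp
  have hiK : i ≤ K := by omega
  have hKi : M * n ≤ K - i := by omega
  -- first part
  have hQ1 : (Dt : ℝ) ^ N * |Q| ≤ (M * ((N : ℕ) + 1)) * (D ^ 3 * C * C *
      Real.exp (4 * n * U + M)) * Real.exp (-B) := by
    have h1 := q_bound β (fun w => g * (w.2 : ℕ) + z * (w.1 : ℕ)) K i s0 hs0pos.le hsys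
    have h2 : |s0 - 1| ^ (K - i) ≤ Real.exp (-B) := by
      calc |s0 - 1| ^ (K - i) ≤ (Real.exp (-b)) ^ (K - i) :=
            pow_le_pow_left₀ (abs_nonneg _) hs1 _
        _ ≤ (Real.exp (-b)) ^ (M * n) :=
            pow_le_pow_of_le_one (Real.exp_pos _).le heb hKi
        _ = Real.exp (-(b * (M * n))) := by
            rw [← Real.exp_nat_mul]
            congr 1
            push_cast
            ring
        _ ≤ Real.exp (-B) := Real.exp_le_exp.2 (by linarith)
    have h3 : (Dt : ℝ) ^ N * ∑ w : Fin M × Fin (N + 1), |(β w : ℝ)| *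
        (Nat.choose (g * (w.2 : ℕ) + z * (w.1 : ℕ)) i : ℝ) *
        (Nat.choose (g * (w.2 : ℕ) + z * (w.1 : ℕ)) (K - i) : ℝ) *
        (max 1 s0) ^ (g * (w.2 : ℕ) + z * (w.1 : ℕ)) ≤
        (M * ((N : ℕ) + 1)) * (D ^ 3 * C * C * Real.exp (4 * n * U + M)) := by
      rw [Finset.mul_sum]
      refine (Finset.sum_le_card_nsmul _ _ (D ^ 3 * C * C * Real.exp (4 * n * U + M)) ?_).trans
        (le_of_eq ?_)
      · intro w _
        have a1 := hbd w
        have a2 := hch w i hiK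
        have a3 := hch w (K - i) (Nat.sub_le _ _)
        have a4 := hgrow w
        calc (Dt : ℝ) ^ N * (|(β w : ℝ)| *
            (Nat.choose (g * (w.2 : ℕ) + z * (w.1 : ℕ)) i : ℝ) *
            (Nat.choose (g * (w.2 : ℕ) + z * (w.1 : ℕ)) (K - i) : ℝ) *
            (max 1 s0) ^ (g * (w.2 : ℕ) + z * (w.1 : ℕ)))
            = (|(β w : ℝ)| * (Nat.choose (g * (w.2 : ℕ) + z * (w.1 : ℕ)) i : ℝ) *
            (Nat.choose (g * (w.2 : ℕ) + z * (w.1 : ℕ)) (K - i) : ℝ)) * ((Dt : ℝ) ^ N *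
            (max 1 s0) ^ (g * (w.2 : ℕ) + z * (w.1 : ℕ))) := by ring
          _ ≤ (D ^ 3 * C * C) * Real.exp (4 * n * U + M) := by
            apply mul_le_mul _ a4 (by positivity) (by positivity)
            apply mul_le_mul _ a3 (by positivity) (by positivity)
            exact mul_le_mul a1 a2 (by positivity) (by positivity)
          _ = _ := by ring
      · rw [nsmul_eq_mul, hcard]
    calc (Dt : ℝ) ^ N * |Q| ≤ (Dt : ℝ) ^ N * (|s0 - 1| ^ (K - i) *
        ∑ w : Fin M × Fin (N + 1), |(β w : ℝ)| *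
        (Nat.choose (g * (w.2 : ℕ) + z * (w.1 : ℕ)) i : ℝ) *
        (Nat.choose (g * (w.2 : ℕ) + z * (w.1 : ℕ)) (K - i) : ℝ) *
        (max 1 s0) ^ (g * (w.2 : ℕ) + z * (w.1 : ℕ))) :=
          mul_le_mul_of_nonneg_left h1 (by positivity)
      _ = ((Dt : ℝ) ^ N * ∑ w : Fin M × Fin (N + 1), |(β w : ℝ)| *
        (Nat.choose (g * (w.2 : ℕ) + z * (w.1 : ℕ)) i : ℝ) *
        (Nat.choose (g * (w.2 : ℕ) + z * (w.1 : ℕ)) (K - i) : ℝ) *
        (max 1 s0) ^ (g * (w.2 : ℕ) + z * (w.1 : ℕ))) * |s0 - 1| ^ (K - i) := by ring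
      _ ≤ _ := mul_le_mul h3 h2 (by positivity) (by positivity)
  -- second part
  have hE1 : (Dt : ℝ) ^ N * |E| ≤ (M * ((N : ℕ) + 1)) * (D ^ 3 * C *
      Real.exp (4 * n * U + M)) * (2 * Real.exp (-B)) := by
    have h1 : |E| ≤ ∑ w : Fin M × Fin (N + 1), |(β w : ℝ)| *
        (Nat.choose (g * (w.2 : ℕ) + z * (w.1 : ℕ)) i : ℝ) *
        (s0 ^ (g * (w.2 : ℕ) + z * (w.1 : ℕ)) * |Real.exp ((w.1 : ℕ) * η) - 1|) := by
      rw [hE]
      refine (Finset.abs_sum_le_sum_abs _ _).trans (le_of_eq ?_)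
      apply Finset.sum_congr rfl
      intro w _
      rw [abs_mul, abs_mul, abs_mul, Nat.abs_cast, abs_of_pos (pow_pos hs0pos _)]
    have h2 : (Dt : ℝ) ^ N * ∑ w : Fin M × Fin (N + 1), |(β w : ℝ)| *
        (Nat.choose (g * (w.2 : ℕ) + z * (w.1 : ℕ)) i : ℝ) *
        (s0 ^ (g * (w.2 : ℕ) + z * (w.1 : ℕ)) * |Real.exp ((w.1 : ℕ) * η) - 1|) ≤
        (M * ((N : ℕ) + 1)) * (D ^ 3 * C * Real.exp (4 * n * U + M) * (2 * Real.exp (-B))) := by
      rw [Finset.mul_sum]
      refine (Finset.sum_le_card_nsmul _ _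
        (D ^ 3 * C * Real.exp (4 * n * U + M) * (2 * Real.exp (-B))) ?_).trans (le_of_eq ?_)
      · intro w _
        have a1 := hbd w
        have a2 := hch w i hiK
        have a4 := hgrow w
        have a5 : (Dt : ℝ) ^ N * s0 ^ (g * (w.2 : ℕ) + z * (w.1 : ℕ)) ≤
            Real.exp (4 * n * U + M) := by
          refine le_trans ?_ a4
          apply mul_le_mul_of_nonneg_left _ (by positivity)
          exact pow_le_pow_left₀ hs0pos.le (le_max_right _ _) _
        have hw1R : ((w.1 : ℕ) : ℝ) ≤ g := by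
          have : (w.1 : ℕ) ≤ g := w.1.2.le.trans hMg
          exact_mod_cast this
        have a6 : |((w.1 : ℕ) : ℝ) * η| ≤ Real.exp (-B) := by
          rw [abs_mul, Nat.abs_cast]
          nlinarith [abs_nonneg η]
        have a7 : |Real.exp ((w.1 : ℕ) * η) - 1| ≤ 2 * Real.exp (-B) := by
          have := Real.abs_exp_sub_one_le (x := ((w.1 : ℕ) : ℝ) * η) (by linarith)
          linarith
        calc (Dt : ℝ) ^ N * (|(β w : ℝ)| *
            (Nat.choose (g * (w.2 : ℕ) + z * (w.1 : ℕ)) i : ℝ) *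
            (s0 ^ (g * (w.2 : ℕ) + z * (w.1 : ℕ)) * |Real.exp ((w.1 : ℕ) * η) - 1|))
            = (|(β w : ℝ)| * (Nat.choose (g * (w.2 : ℕ) + z * (w.1 : ℕ)) i : ℝ)) *
            ((Dt : ℝ) ^ N * s0 ^ (g * (w.2 : ℕ) + z * (w.1 : ℕ))) *
            |Real.exp ((w.1 : ℕ) * η) - 1| := by ring
          _ ≤ (D ^ 3 * C) * Real.exp (4 * n * U + M) * (2 * Real.exp (-B)) := by
            apply mul_le_mul _ a7 (by positivity) (by positivity)
            apply mul_le_mul _ a5 (by positivity) (by positivity)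
            exact mul_le_mul a1 a2 (by positivity) (by positivity)
      · rw [nsmul_eq_mul, hcard]
    calc (Dt : ℝ) ^ N * |E| ≤ (Dt : ℝ) ^ N * ∑ w : Fin M × Fin (N + 1), |(β w : ℝ)| *
        (Nat.choose (g * (w.2 : ℕ) + z * (w.1 : ℕ)) i : ℝ) *
        (s0 ^ (g * (w.2 : ℕ) + z * (w.1 : ℕ)) * |Real.exp ((w.1 : ℕ) * η) - 1|) :=
          mul_le_mul_of_nonneg_left h1 (by positivity)
      _ ≤ _ := h2
      _ = _ := by ring
  -- the lower bound
  have hlow : (1 : ℝ) ≤ |(ξ : ℝ)| := by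
    have h1 : (1 : ℤ) ≤ |ξ| := Int.one_le_abs hξ
    have h2 : ((1 : ℤ) : ℝ) ≤ ((|ξ| : ℤ) : ℝ) := Int.cast_le.2 h1
    push_cast at h2
    exact h2
  have hWM : (W1 : ℝ) ^ (M - 1) ≤ Real.exp (M * V) := by
    calc (W1 : ℝ) ^ (M - 1) ≤ (Real.exp V) ^ (M - 1) := pow_le_pow_left₀ pW1.le hW1 _
      _ = Real.exp ((M - 1 : ℕ) * V) := by rw [← Real.exp_nat_mul]
      _ ≤ Real.exp (M * V) := by
        apply Real.exp_le_exp.2
        apply mul_le_mul_of_nonneg_right _ hV
        exact_mod_cast Nat.sub_le M 1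
  have hup : |(ξ : ℝ)| ≤ (3 * D ^ 4 * C * Real.exp (4 * n * U + M) * Real.exp (-B)) *
      Real.exp (M * V) := by
    rw [hξR, abs_mul, abs_of_nonneg (by positivity : (0 : ℝ) ≤ (Dt : ℝ) ^ N * (W1 : ℝ) ^ (M - 1))]
    have h1 : |Q + E| ≤ |Q| + |E| := abs_add_le _ _
    calc (Dt : ℝ) ^ N * (W1 : ℝ) ^ (M - 1) * |Q + E|
        ≤ (Dt : ℝ) ^ N * (W1 : ℝ) ^ (M - 1) * (|Q| + |E|) :=
          mul_le_mul_of_nonneg_left h1 (by positivity)
      _ = ((Dt : ℝ) ^ N * |Q| + (Dt : ℝ) ^ N * |E|) * (W1 : ℝ) ^ (M - 1) := by ring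
      _ ≤ ((M * ((N : ℕ) + 1)) * (D ^ 3 * C * C * Real.exp (4 * n * U + M)) * Real.exp (-B) +
          (M * ((N : ℕ) + 1)) * (D ^ 3 * C * Real.exp (4 * n * U + M)) * (2 * Real.exp (-B))) *
          Real.exp (M * V) := by
          apply mul_le_mul (add_le_add hQ1 hE1) hWM (by positivity) (by positivity)
      _ = (D ^ 4 * (C + 2) * Real.exp (4 * n * U + M) * Real.exp (-B)) * Real.exp (M * V) := by
          rw [hD]
          ring
      _ ≤ (3 * D ^ 4 * C * Real.exp (4 * n * U + M) * Real.exp (-B)) * Real.exp (M * V) := by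
          apply mul_le_mul_of_nonneg_right _ (Real.exp_pos _).le
          apply mul_le_mul_of_nonneg_right _ (Real.exp_pos _).le
          apply mul_le_mul_of_nonneg_right _ (Real.exp_pos _).le
          have : 0 ≤ D ^ 4 := by positivity
          nlinarith
  have h1 := hlow.trans hup
  have h2 : Real.exp B * 1 ≤ Real.exp B *
      ((3 * D ^ 4 * C * Real.exp (4 * n * U + M) * Real.exp (-B)) * Real.exp (M * V)) :=
    mul_le_mul_of_nonneg_left h1 (Real.exp_pos _).le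
  rw [mul_one] at h2
  refine h2.trans (le_of_eq ?_)
  have h3 : Real.exp (4 * n * U + M * V + M) =
      Real.exp (4 * n * U + M) * Real.exp (M * V) := by
    rw [← Real.exp_add]
    congr 1
    ring
  have h4 : Real.exp B * Real.exp (-B) = 1 := by
    rw [← Real.exp_add, add_neg_cancel, Real.exp_zero]
  rw [h3]
  linear_combination (3 * D ^ 4 * C * Real.exp (4 * n * U + M) * Real.exp (M * V)) * h4

end PZRP

open PZRP in
theorem pzr_thm : S_PZR := by
  intro g M n z b B Nt Dt W1 W2 U V hg hz0 hzg hM hMg hn hA hne hb hB1 hB hU hV hNU hDU hW1 hW2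
  have hMR : (1 : ℝ) ≤ M := by exact_mod_cast hM
  have hnR : (2 : ℝ) ≤ n := by exact_mod_cast hn
  have hg2 : (2 : ℝ) ≤ g := by exact_mod_cast hg.two_le
  have hlog6 : 1 ≤ Real.log 6 := by
    rw [Real.le_log_iff_exp_le (by norm_num)]
    have := Real.exp_one_lt_d9
    linarith
  have hlogg : 0 ≤ Real.log (g : ℝ) := Real.log_nonneg (by linarith)
  have hlog6g : Real.log (6 * (g : ℝ)) = Real.log 6 + Real.log g :=
    Real.log_mul (by norm_num) (by linarith)
  by_cases h : Nt = Dt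
  · have hW : W1 ≠ W2 := by
      rcases hne with h1 | h1
      · exact absurd h h1
      · exact h1
    have h1 := hA.rel
    rw [h, sub_self, mul_zero, zero_add] at h1
    have h2 := case_eq g B V W1 W2 hg.one_lt.le hA.W10 hA.W20 hW h1 hW1 hW2
    rw [hlog6g]
    have h3 : 0 ≤ 100 * ((M : ℝ) * n) * (Real.log 6 + Real.log g) := by positivity
    have h4 : 0 ≤ 4 * (n : ℝ) * U := by positivity
    nlinarith
  · have h1 := case_ne g M n z b B Nt Dt W1 W2 U V hg hz0 hzg hM hMg hn hA h hb hB1 hB hU hV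
      hNU hDU hW1
    set C : ℝ := (g : ℝ) ^ (3 * (M * n)) * 3 ^ (4 * n + M) with hC
    have hC0 : 0 < C := by positivity
    set S : ℝ := (M * ((4 * n : ℕ) + 1) : ℝ) with hS
    have hS0 : 0 < S := by
      rw [hS]
      positivity
    have h2 : B ≤ Real.log 3 + 4 * (Real.log S + Real.log C) + Real.log C +
        (4 * n * U + M * V + M) := by
      have h3 := Real.log_le_log (Real.exp_pos B) h1
      rw [Real.log_exp, Real.log_mul (by positivity) (Real.exp_pos _).ne', Real.log_exp,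
        Real.log_mul (by positivity) hC0.ne', Real.log_mul (by norm_num) (by positivity),
        Real.log_pow, Real.log_mul hS0.ne' hC0.ne'] at h3
      push_cast at h3
      linarith
    have hlogC : Real.log C = 3 * (M * n) * Real.log g + (4 * n + M) * Real.log 3 := by
      rw [hC, Real.log_mul (by positivity) (by positivity), Real.log_pow, Real.log_pow]
      push_cast
      ring
    have hlogS : Real.log S ≤ 5 * (M * n) := by
      have h3 := Real.log_le_sub_one_of_pos hS0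
      have h4 : S = M * (4 * n + 1) := by
        rw [hS]
        push_cast
        ring
      have h5 : S - 1 ≤ 5 * (M * n) := by
        rw [h4]
        nlinarith
      linarith
    have hlog3 : Real.log 3 ≤ 2 := by
      have := Real.log_le_sub_one_of_pos (show (0 : ℝ) < 3 by norm_num)
      linarith
    have hMn : (2 : ℝ) ≤ M * n := by nlinarith
    have hsum : (4 * (n : ℝ) + M) ≤ 5 * (M * n) := by nlinarith
    have hlog30 : 0 ≤ Real.log 3 := Real.log_nonneg (by norm_num)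
    have h6 : (4 * (n : ℝ) + M) * Real.log 3 ≤ 5 * (M * n) * 2 :=
      mul_le_mul hsum hlog3 hlog30 (by positivity)
    rw [hlog6g]
    have h7 : (M : ℝ) * n * 1 ≤ M * n * Real.log 6 :=
      mul_le_mul_of_nonneg_left hlog6 (by positivity)
    have h8 : 0 ≤ (M : ℝ) * n * Real.log g := by positivity
    rw [hlogC] at h2
    nlinarith

end Pool.LH
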