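import Pool.Agent.H94.LH.Stmts

/-!
# LH, module PZ: the weight of `T` from two tuples (from `S_PADE` and `S_ZER`)
-/

set_option autoImplicit false

namespace Pool.LH

open Finset Pool.Agent.H98.ABCR Pool.SHA

theorem pz_thm (hP : Pool.ALLH.S_PADE) (hZ : Pool.ALLH.S_ZER) : S_PZ := by
  intro g M n z T x m Nt Dt W1 W2 U V hg hz0 hzg hM hMg hn hT hA hx hU hV hNU hDU hW1 hW2
  by_cases hND : Nt = Dt
  · have hW : W1 ≠ W2 := by
      rcases hA.ne with h | h
      · exact absurd hND h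
      · exact h
    have hV' : ∑ t ∈ T, (x t : ℝ) * Real.log t ≤ V := by
      refine hZ g T x m (1 + ∏ q ∈ T, q ^ m q) 1 W1 W2 V hg ?_ (fun t ht => (hx t ht).1) hW hW1 hW2
      have hdv : ∀ t ∈ T, t ^ m t ∣ ∏ q ∈ T, q ^ m q := fun t ht =>
        Finset.dvd_prod_of_mem (fun q => q ^ m q) ht
      have hprodpos : 0 < ∏ q ∈ T, q ^ m q :=
        Finset.prod_pos fun q hq => pow_pos (hT q hq).pos _
      refine ⟨by omega, one_pos, hA.W10, hA.W20, by omega, hT, ?_, ?_, hA.t1, hA.t2, ?_, hA.cW, ?_⟩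
      · intro t ht h
        have h1 : t ∣ ∏ q ∈ T, q ^ m q :=
          (dvd_pow_self t (by have := (hx t ht).2.1; omega)).trans (hdv t ht)
        have h2 : t ∣ 1 := (Nat.dvd_add_left h1).1 h
        exact (hT t ht).one_lt.ne' (Nat.dvd_one.1 h2)
      · intro t ht h
        exact (hT t ht).one_lt.ne' (Nat.dvd_one.1 h)
      · intro t ht
        have h1 : ((t ^ m t : ℕ) : ℤ) ∣ ((∏ q ∈ T, q ^ m q : ℕ) : ℤ) :=
          Int.natCast_dvd_natCast.2 (hdv t ht)
        have h2 : ((1 + ∏ q ∈ T, q ^ m q : ℕ) : ℤ) - ((1 : ℕ) : ℤ) =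
            ((∏ q ∈ T, q ^ m q : ℕ) : ℤ) := by
          push_cast
          ring
        rw [h2]
        have h3 : ((t ^ m t : ℕ) : ℤ) = (t : ℤ) ^ m t := by push_cast; rfl
        rw [← h3]
        exact h1
      · intro t ht
        have h1 := hA.rel t ht
        rw [hND] at h1
        have h2 : (Dt : ℤ) ^ z * (W1 : ℤ) ^ g - (Dt : ℤ) ^ z * (W2 : ℤ) ^ g =
            (Dt : ℤ) ^ z * ((W1 : ℤ) ^ g - (W2 : ℤ) ^ g) := by ring
        rw [h2] at h1
        have h3 : IsCoprime ((t : ℤ) ^ x t) ((Dt : ℤ) ^ z) := by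
          apply IsCoprime.pow
          rw [Nat.isCoprime_iff_coprime]
          exact ((hT t ht).coprime_iff_not_dvd).2 (hA.tD t ht)
        have h4 := h3.dvd_of_dvd_mul_left h1
        simpa using h4
    refine hV'.trans ?_
    have hM' : (1 : ℝ) ≤ M := by exact_mod_cast hM
    have hg' : (1 : ℝ) ≤ g := by exact_mod_cast hg.one_lt.le
    have h1 : 0 ≤ 20 * ((M : ℝ) * n) * Real.log (6 * g) := by
      apply mul_nonneg (by positivity)
      exact Real.log_nonneg (by linarith)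
    have h2 : 0 ≤ 4 * (n : ℝ) * U := by positivity
    nlinarith
  · refine hP g M n z T x m Nt Dt W1 W2 U V hg hz0 hzg hM hMg hn ?_ hx hNU hDU hW1 hW2
    exact ⟨hA.N0, hA.D0, hA.W10, hA.W20, hND, hT, hA.tN, hA.tD, hA.t1, hA.t2, hA.cN, hA.cW,
      hA.rel⟩

end Pool.LH
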