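import Pool.Agent.H94.LH.Stmts

/-!
# LH, module TUR: two tuples with `log (N / D)` in the same box
-/

set_option autoImplicit false

namespace Pool.LH

open Finset Pool.Agent.H98.ABCR Pool.SHA

namespace TURP

/-- one small summand -/
theorem small_real (x y c : ℝ) (hx : 0 < x) (hy : 0 < y) (hc : x + y = c)
    (h2 : 2 ≤ Real.log c) (hxc : Real.log x ≤ Real.log c / 2) :
    |Real.log c - Real.log y| ≤ 2 * Real.exp (-(Real.log c / 2)) := by
  have hc0 : 0 < c := by linarith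
  have hr : x / c ≤ Real.exp (-(Real.log c / 2)) := by
    rw [← Real.log_le_iff_le_exp (div_pos hx hc0), Real.log_div hx.ne' hc0.ne']
    linarith
  have he : Real.exp (-(Real.log c / 2)) ≤ 1 / 2 := by
    have h3 : Real.exp (-(Real.log c / 2)) ≤ Real.exp (-1) := Real.exp_le_exp.2 (by linarith)
    have h4 : Real.exp (-1) ≤ 1 / 2 := by
      rw [Real.exp_neg, inv_eq_one_div]
      have := Real.add_one_le_exp (1 : ℝ)
      apply one_div_le_one_div_of_le (by norm_num)
      linarith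
    linarith
  have hr0 : 0 < x / c := div_pos hx hc0
  have hyc : y / c = 1 - x / c := by
    field_simp
    linarith
  have h1 : 0 < y / c := div_pos hy hc0
  have h3 := Real.one_sub_inv_le_log_of_pos h1
  rw [Real.log_div hy.ne' hc0.ne'] at h3
  have h4 : Real.log y ≤ Real.log c := Real.log_le_log hy (by linarith)
  rw [abs_of_nonneg (by linarith)]
  have h5 : (y / c)⁻¹ ≤ 1 + 2 * (x / c) := by
    rw [hyc, inv_le_iff_one_le_mul₀ (by linarith)]
    nlinarith
  linarith

theorem small (v : ℕ × ℕ) (i s1 s2 : Fin 3) (hv : IsTri v) (h2 : 2 ≤ hh v)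
    (hi : Real.log (coord v i) ≤ hh v / 2) (h12 : s1 ≠ s2) (h1 : s1 ≠ i) (h3 : s2 ≠ i) :
    |Real.log (coord v s1) - Real.log (coord v s2)| ≤ 2 * Real.exp (-(hh v / 2)) := by
  have hx : (0 : ℝ) < (v.1 : ℝ) := by exact_mod_cast hv.1
  have hy : (0 : ℝ) < (v.2 : ℝ) := by exact_mod_cast hv.2.1
  have hh' : hh v = Real.log ((v.1 : ℝ) + v.2) := by
    unfold hh
    push_cast
    rfl
  rw [hh'] at h2 hi ⊢
  have c0 : ((coord v 0 : ℕ) : ℝ) = v.1 := rfl
  have c1 : ((coord v 1 : ℕ) : ℝ) = v.2 := rfl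
  have c2 : ((coord v 2 : ℕ) : ℝ) = (v.1 : ℝ) + v.2 := by
    have : coord v 2 = v.1 + v.2 := rfl
    rw [this]
    push_cast
    rfl
  have A1 : Real.log (v.1 : ℝ) ≤ Real.log ((v.1 : ℝ) + v.2) / 2 →
      |Real.log ((v.1 : ℝ) + v.2) - Real.log (v.2 : ℝ)| ≤
        2 * Real.exp (-(Real.log ((v.1 : ℝ) + v.2) / 2)) := fun h =>
    small_real _ _ _ hx hy rfl h2 h
  have A2 : Real.log (v.2 : ℝ) ≤ Real.log ((v.1 : ℝ) + v.2) / 2 →
      |Real.log ((v.1 : ℝ) + v.2) - Real.log (v.1 : ℝ)| ≤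
        2 * Real.exp (-(Real.log ((v.1 : ℝ) + v.2) / 2)) := fun h =>
    small_real _ _ _ hy hx (add_comm _ _) h2 h
  have A3 : ∀ a b : ℝ, |a - b| = |b - a| := fun a b => abs_sub_comm a b
  fin_cases i
  · fin_cases s1
    · exact absurd rfl h1
    · fin_cases s2
      · exact absurd rfl h3
      · exact absurd rfl h12
      · show |Real.log ((coord v 1 : ℕ) : ℝ) - Real.log ((coord v 2 : ℕ) : ℝ)| ≤ _
        rw [c1, c2, A3]
        exact A1 (by rw [← c0]; exact hi)
    · fin_cases s2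
      · exact absurd rfl h3
      · show |Real.log ((coord v 2 : ℕ) : ℝ) - Real.log ((coord v 1 : ℕ) : ℝ)| ≤ _
        rw [c1, c2]
        exact A1 (by rw [← c0]; exact hi)
      · exact absurd rfl h12
  · fin_cases s1
    · fin_cases s2
      · exact absurd rfl h12
      · exact absurd rfl h3
      · show |Real.log ((coord v 0 : ℕ) : ℝ) - Real.log ((coord v 2 : ℕ) : ℝ)| ≤ _
        rw [c0, c2, A3]
        exact A2 (by rw [← c1]; exact hi)
    · exact absurd rfl h1
    · fin_cases s2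
      · show |Real.log ((coord v 2 : ℕ) : ℝ) - Real.log ((coord v 0 : ℕ) : ℝ)| ≤ _
        rw [c0, c2]
        exact A2 (by rw [← c1]; exact hi)
      · exact absurd rfl h3
      · exact absurd rfl h12
  · exfalso
    have hi' : Real.log ((coord v 2 : ℕ) : ℝ) ≤ Real.log ((v.1 : ℝ) + v.2) / 2 := hi
    rw [c2] at hi'
    linarith

theorem coord_pos (v : ℕ × ℕ) (hv : IsTri v) (s : Fin 3) : 0 < coord v s := by
  have h1 := hv.1
  have h2 := hv.2.1
  fin_cases s
  · exact h1
  · exact h2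
  · show 0 < v.1 + v.2
    omega

theorem dec_log {g z : ℕ} {U V : ℝ} {s1 s2 : Fin 3} {v : ℕ × ℕ} {N D A B : ℕ} (hv : IsTri v)
    (h : Dec g z U V s1 s2 v N D A B) :
    Real.log (coord v s1) - Real.log (coord v s2) =
      z * (Real.log N - Real.log D) + g * (Real.log A - Real.log B) := by
  have hN : (0 : ℝ) < N := by exact_mod_cast h.N0
  have hD : (0 : ℝ) < D := by exact_mod_cast h.D0
  have hA : (0 : ℝ) < A := by exact_mod_cast h.A0
  have hB : (0 : ℝ) < B := by exact_mod_cast h.B0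
  have h1 : (0 : ℝ) < coord v s1 := by exact_mod_cast coord_pos v hv s1
  have h2 : (0 : ℝ) < coord v s2 := by exact_mod_cast coord_pos v hv s2
  have h3 : ((coord v s1 : ℕ) : ℝ) * ((D : ℝ) ^ z * (B : ℝ) ^ g) =
      (coord v s2 : ℕ) * ((N : ℝ) ^ z * (A : ℝ) ^ g) := by exact_mod_cast h.eq
  have h4 := congrArg Real.log h3
  rw [Real.log_mul h1.ne' (by positivity), Real.log_mul h2.ne' (by positivity),
    Real.log_mul (by positivity) (by positivity), Real.log_mul (by positivity) (by positivity),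
    Real.log_pow, Real.log_pow, Real.log_pow, Real.log_pow] at h4
  linarith

/-- products over the tuple -/
theorem log_pr {t : ℕ} (f h : Fin t → ℕ) (hf : ∀ r, 0 < f r) (hh : ∀ r, 0 < h r) :
    Real.log ((∏ r, f r * h r : ℕ) : ℝ) = ∑ r, Real.log (f r) + ∑ r, Real.log (h r) := by
  have h1 : ∀ r, ((f r : ℕ) : ℝ) ≠ 0 := fun r => by have := hf r; positivity
  have h2 : ∀ r, ((h r : ℕ) : ℝ) ≠ 0 := fun r => by have := hh r; positivity
  push_cast
  rw [Real.log_prod (fun r _ => mul_ne_zero (h1 r) (h2 r)), ← Finset.sum_add_distrib]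
  exact Finset.sum_congr rfl fun r _ => Real.log_mul (h1 r) (h2 r)

theorem pr_le {t : ℕ} (f h : Fin t → ℕ) (U : ℝ) (hf : ∀ r, (f r : ℝ) ≤ Real.exp U)
    (hh : ∀ r, (h r : ℝ) ≤ Real.exp U) :
    ((∏ r, f r * h r : ℕ) : ℝ) ≤ Real.exp (2 * t * U) := by
  push_cast
  calc ∏ r, ((f r : ℝ) * (h r : ℝ)) ≤ ∏ _r : Fin t, Real.exp (2 * U) := by
        apply Finset.prod_le_prod
        · intro r _
          positivity
        · intro r _
          have : Real.exp (2 * U) = Real.exp U * Real.exp U := by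
            rw [← Real.exp_add]
            congr 1
            ring
          rw [this]
          exact mul_le_mul (hf r) (hh r) (by positivity) (Real.exp_pos _).le
    _ = Real.exp (2 * t * U) := by
        rw [Finset.prod_const, Finset.card_univ, Fintype.card_fin, ← Real.exp_nat_mul]
        congr 1
        ring

theorem pr_pos {t : ℕ} (f h : Fin t → ℕ) (hf : ∀ r, 0 < f r) (hh : ∀ r, 0 < h r) :
    0 < ∏ r, f r * h r := Finset.prod_pos fun r _ => Nat.mul_pos (hf r) (hh r)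

/-- the product of the quotients -/
theorem th_log {t g z : ℕ} {U V : ℝ} {s1 s2 : Fin 3} (w : Fin t → ℕ × ℕ) (N D A B : ℕ × ℕ → ℕ)
    (hw : ∀ r, IsTri (w r) ∧ Dec g z U V s1 s2 (w r) (N (w r)) (D (w r)) (A (w r)) (B (w r))) :
    0 < Th s1 s2 w ∧ Real.log ((Th s1 s2 w : ℚ) : ℝ) =
      z * (∑ r, Real.log (N (w r)) - ∑ r, Real.log (D (w r))) +
        g * (∑ r, Real.log (A (w r)) - ∑ r, Real.log (B (w r))) := by
  have hp : ∀ r s, (0 : ℝ) < coord (w r) s := fun r s => by
    exact_mod_cast coord_pos _ (hw r).1 s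
  have hpq : ∀ r s, (0 : ℚ) < coord (w r) s := fun r s => by
    exact_mod_cast coord_pos _ (hw r).1 s
  constructor
  · unfold Th
    exact Finset.prod_pos fun r _ => div_pos (hpq r s1) (hpq r s2)
  · unfold Th
    push_cast
    rw [Real.log_prod (fun r _ => (div_pos (hp r s1) (hp r s2)).ne')]
    have h1 : ∀ r, Real.log ((coord (w r) s1 : ℝ) / coord (w r) s2) =
        z * (Real.log (N (w r)) - Real.log (D (w r))) +
          g * (Real.log (A (w r)) - Real.log (B (w r))) := by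
      intro r
      rw [Real.log_div (hp r s1).ne' (hp r s2).ne']
      exact dec_log (hw r).1 (hw r).2
    rw [Finset.sum_congr rfl fun r _ => h1 r, Finset.sum_add_distrib, ← Finset.mul_sum,
      ← Finset.mul_sum, Finset.sum_sub_distrib, Finset.sum_sub_distrib]

end TURP

open TURP in
theorem tur_thm : S_TUR := by
  intro t g z i s1 s2 W N D A B U V b h0 hg ht h12 h1i h2i hb hh0 hU hW hinj hcard
  have ht' : (1 : ℝ) ≤ t := by exact_mod_cast ht
  have hDec : ∀ w ∈ W, ∀ r, IsTri (w r) ∧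
      Dec g z U V s1 s2 (w r) (N (w r)) (D (w r)) (A (w r)) (B (w r)) :=
    fun w hw r => ⟨(hW w hw r).1, (hW w hw r).2.2.2⟩
  set F : (Fin t → ℕ × ℕ) → ℝ := fun w =>
    ∑ r, Real.log (N (w r)) - ∑ r, Real.log (D (w r)) with hF
  have hFb : ∀ w ∈ W, |F w| ≤ t * U := by
    intro w hw
    have h1 : F w = ∑ r, (Real.log (N (w r)) - Real.log (D (w r))) := by
      rw [hF, Finset.sum_sub_distrib]
    rw [h1]
    refine (Finset.abs_sum_le_sum_abs _ _).trans ?_
    have h2 : ∀ r ∈ (Finset.univ : Finset (Fin t)),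
        |Real.log (N (w r)) - Real.log (D (w r))| ≤ U := by
      intro r _
      have h3 := (hDec w hw r).2
      have hN1 : (1 : ℝ) ≤ N (w r) := by exact_mod_cast h3.N0
      have hD1 : (1 : ℝ) ≤ D (w r) := by exact_mod_cast h3.D0
      have a1 : 0 ≤ Real.log (N (w r)) := Real.log_nonneg hN1
      have a2 : 0 ≤ Real.log (D (w r)) := Real.log_nonneg hD1
      have a3 : Real.log (N (w r)) ≤ U :=
        (Real.log_le_iff_le_exp (by linarith)).2 h3.Nle
      have a4 : Real.log (D (w r)) ≤ U :=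
        (Real.log_le_iff_le_exp (by linarith)).2 h3.Dle
      rw [abs_le]
      constructor <;> linarith
    refine (Finset.sum_le_card_nsmul _ _ _ h2).trans ?_
    rw [Finset.card_univ, Fintype.card_fin, nsmul_eq_mul]
  -- pigeonhole
  have hexp : 0 < Real.exp b := Real.exp_pos b
  have hmaps : ∀ w ∈ W, ⌊(F w + t * U) * Real.exp b⌋₊ ∈
      Finset.range (⌊(2 * t * U) * Real.exp b⌋₊ + 1) := by
    intro w hw
    rw [Finset.mem_range, Nat.lt_succ_iff]
    apply Nat.floor_le_floor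
    apply mul_le_mul_of_nonneg_right _ hexp.le
    have := (abs_le.1 (hFb w hw)).2
    linarith
  have hlt : (Finset.range (⌊(2 * t * U) * Real.exp b⌋₊ + 1)).card < W.card := by
    rw [Finset.card_range]
    have h1 : ((⌊(2 * t * U) * Real.exp b⌋₊ : ℕ) : ℝ) ≤ (2 * t * U) * Real.exp b :=
      Nat.floor_le (by positivity)
    have h2 : ((⌊(2 * t * U) * Real.exp b⌋₊ + 1 : ℕ) : ℝ) < W.card := by
      push_cast
      nlinarith
    exact_mod_cast h2
  obtain ⟨w, hw, w', hw', hne, hbox⟩ :=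
    Finset.exists_ne_map_eq_of_card_lt_of_maps_to hlt hmaps
  have hclose : |F w - F w'| ≤ Real.exp (-b) := by
    have h0w : 0 ≤ (F w + t * U) * Real.exp b :=
      mul_nonneg (by have := (abs_le.1 (hFb w hw)).1; linarith) hexp.le
    have h0w' : 0 ≤ (F w' + t * U) * Real.exp b :=
      mul_nonneg (by have := (abs_le.1 (hFb w' hw')).1; linarith) hexp.le
    have a1 := Nat.floor_le h0w
    have a2 := Nat.floor_le h0w'
    have a3 := Nat.lt_floor_add_one ((F w + t * U) * Real.exp b)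
    have a4 := Nat.lt_floor_add_one ((F w' + t * U) * Real.exp b)
    rw [hbox] at a1 a3
    have h1 : |(F w - F w') * Real.exp b| ≤ 1 := by
      rw [abs_le]
      constructor <;> nlinarith
    rw [abs_mul, abs_of_pos hexp] at h1
    rw [Real.exp_neg, ← one_div, le_div_iff₀ hexp]
    exact h1
  -- the numbers
  have PN : ∀ w ∈ W, ∀ r, 0 < N (w r) := fun w hw r => (hDec w hw r).2.N0
  have PD : ∀ w ∈ W, ∀ r, 0 < D (w r) := fun w hw r => (hDec w hw r).2.D0
  have PA : ∀ w ∈ W, ∀ r, 0 < A (w r) := fun w hw r => (hDec w hw r).2.A0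
  have PB : ∀ w ∈ W, ∀ r, 0 < B (w r) := fun w hw r => (hDec w hw r).2.B0
  have lN := log_pr (fun r => N (w r)) (fun r => D (w' r)) (PN w hw) (PD w' hw')
  have lD := log_pr (fun r => D (w r)) (fun r => N (w' r)) (PD w hw) (PN w' hw')
  have lA := log_pr (fun r => A (w r)) (fun r => B (w' r)) (PA w hw) (PB w' hw')
  have lB := log_pr (fun r => B (w r)) (fun r => A (w' r)) (PB w hw) (PA w' hw')
  obtain ⟨hT0, hT⟩ := th_log w N D A B (hDec w hw)
  obtain ⟨hT0', hT'⟩ := th_log w' N D A B (hDec w' hw')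
  -- smallness
  have hsm : ∀ w ∈ W, |Real.log ((Th s1 s2 w : ℚ) : ℝ)| ≤ 2 * t * Real.exp (-(h0 / 2)) := by
    intro w hw
    have hp : ∀ r s, (0 : ℝ) < coord (w r) s := fun r s => by
      exact_mod_cast coord_pos _ (hW w hw r).1 s
    unfold Th
    push_cast
    rw [Real.log_prod (fun r _ => (div_pos (hp r s1) (hp r s2)).ne')]
    refine (Finset.abs_sum_le_sum_abs _ _).trans ?_
    have h2 : ∀ r ∈ (Finset.univ : Finset (Fin t)),
        |Real.log ((coord (w r) s1 : ℝ) / coord (w r) s2)| ≤ 2 * Real.exp (-(h0 / 2)) := by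
      intro r _
      rw [Real.log_div (hp r s1).ne' (hp r s2).ne']
      obtain ⟨b1, b2, b3, b4⟩ := hW w hw r
      refine (small (w r) i s1 s2 b1 (by linarith) b3 h12 h1i h2i).trans ?_
      have : Real.exp (-(hh (w r) / 2)) ≤ Real.exp (-(h0 / 2)) :=
        Real.exp_le_exp.2 (by linarith)
      linarith
    refine (Finset.sum_le_card_nsmul _ _ _ h2).trans (le_of_eq ?_)
    rw [Finset.card_univ, Fintype.card_fin, nsmul_eq_mul]
    ring
  refine ⟨∏ r, N (w r) * D (w' r), ∏ r, D (w r) * N (w' r), ∏ r, A (w r) * B (w' r),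
    ∏ r, B (w r) * A (w' r), ⟨pr_pos _ _ (PN w hw) (PD w' hw'), pr_pos _ _ (PD w hw) (PN w' hw'),
      pr_pos _ _ (PA w hw) (PB w' hw'), pr_pos _ _ (PB w hw) (PA w' hw'), ?_, ?_⟩, ?_,
    pr_le _ _ U (fun r => (hDec w hw r).2.Nle) (fun r => (hDec w' hw' r).2.Dle),
    pr_le _ _ U (fun r => (hDec w hw r).2.Dle) (fun r => (hDec w' hw' r).2.Nle),
    pr_le _ _ V (fun r => (hDec w hw r).2.Ale) (fun r => (hDec w' hw' r).2.Ble),
    pr_le _ _ V (fun r => (hDec w hw r).2.Ble) (fun r => (hDec w' hw' r).2.Ale)⟩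
  · rw [lN, lD]
    have h1 : ∑ r, Real.log ((N (w r) : ℕ) : ℝ) + ∑ r, Real.log ((D (w' r) : ℕ) : ℝ) -
        (∑ r, Real.log ((D (w r) : ℕ) : ℝ) + ∑ r, Real.log ((N (w' r) : ℕ) : ℝ)) =
        F w - F w' := by
      rw [hF]
      ring
    rw [h1]
    exact hclose
  · rw [lN, lD, lA, lB]
    have h1 : (z : ℝ) * (∑ r, Real.log ((N (w r) : ℕ) : ℝ) + ∑ r, Real.log ((D (w' r) : ℕ) : ℝ) -
        (∑ r, Real.log ((D (w r) : ℕ) : ℝ) + ∑ r, Real.log ((N (w' r) : ℕ) : ℝ))) +
        g * (∑ r, Real.log ((A (w r) : ℕ) : ℝ) + ∑ r, Real.log ((B (w' r) : ℕ) : ℝ) -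
        (∑ r, Real.log ((B (w r) : ℕ) : ℝ) + ∑ r, Real.log ((A (w' r) : ℕ) : ℝ))) =
        Real.log ((Th s1 s2 w : ℚ) : ℝ) - Real.log ((Th s1 s2 w' : ℚ) : ℝ) := by
      rw [hT, hT']
      ring
    rw [h1]
    refine (abs_sub _ _).trans ?_
    have a1 := hsm w hw
    have a2 := hsm w' hw'
    have a3 : Real.exp (-(h0 / 2 - Real.log (4 * t))) = 4 * t * Real.exp (-(h0 / 2)) := by
      have : -(h0 / 2 - Real.log (4 * t)) = Real.log (4 * t) + -(h0 / 2) := by ring
      rw [this, Real.exp_add, Real.exp_log (by positivity)]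
    rw [a3]
    linarith
  · by_contra hcon
    rw [not_or, not_not, not_not] at hcon
    apply hne
    apply hinj w hw w' hw'
    have e1 := congrArg (fun k : ℕ => Real.log (k : ℝ)) hcon.1
    have e2 := congrArg (fun k : ℕ => Real.log (k : ℝ)) hcon.2
    rw [lN, lD] at e1
    rw [lA, lB] at e2
    have h1 : Real.log ((Th s1 s2 w : ℚ) : ℝ) = Real.log ((Th s1 s2 w' : ℚ) : ℝ) := by
      rw [hT, hT']
      linear_combination (z : ℝ) * e1 + (g : ℝ) * e2
    have h2 := Real.log_injOn_pos (Set.mem_Ioi.2 (by exact_mod_cast hT0))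
      (Set.mem_Ioi.2 (by exact_mod_cast hT0')) h1
    exact_mod_cast h2

end Pool.LH
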